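import Pool.Agent.N102.EC.Stm2

/-!
Project EC: stages of function fields of bounded degree with a valuation.
-/

set_option autoImplicit false

universe u

namespace Pool.Agent.N901.EC

open Pool.Agent.N98.RW Pool.Agent.N98 Pool.Agent.H176.DT

lemma lprod_zpow {E K : Type u} [Field E] [Field K] [Algebra E K] {N : ℕ} (x : Fin N → K)
    (j : Fin N) (m : ℤ) : LProd (E := E) x (x j ^ m) := by
  refine ⟨1, fun _ => 0, fun _ => Pi.single j 1, fun _ => m, ?_⟩
  rw [Fin.prod_univ_one]
  congr 1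
  rw [map_zero, zero_add, Finset.sum_eq_single j]
  · show x j = algebraMap E K ((Pi.single j 1 : Fin N → E) j) * x j
    rw [Pi.single_eq_same, map_one, one_mul]
  · intro l _ hl
    show algebraMap E K ((Pi.single j 1 : Fin N → E) l) * x l = 0
    rw [Pi.single_eq_of_ne hl, map_zero, zero_mul]
  · intro h
    exact absurd (Finset.mem_univ j) h

lemma frac_all {E K : Type u} [Field E] [Field K] [Algebra E K] {N : ℕ} (x : Fin N → K)
    (htop : IntermediateField.adjoin E (Set.range x) = ⊤) (A : Subring K)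
    (h1 : ∀ w : E, ∃ a ∈ A, ∃ b ∈ A, b ≠ 0 ∧ algebraMap E K w = a * b⁻¹)
    (h2 : ∀ j, ∃ a ∈ A, ∃ b ∈ A, b ≠ 0 ∧ x j = a * b⁻¹) (w : K) :
    ∃ a ∈ A, ∃ b ∈ A, b ≠ 0 ∧ w = a * b⁻¹ := by
  have hw : w ∈ IntermediateField.adjoin E (Set.range x) := by rw [htop]; trivial
  induction hw using IntermediateField.adjoin_induction with
  | mem z hz =>
    obtain ⟨j, rfl⟩ := hz
    exact h2 j
  | algebraMap c => exact h1 c
  | add y z _ _ hy hz =>
    obtain ⟨a, ha, b, hb, hb0, rfl⟩ := hy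
    obtain ⟨c, hc, d, hd, hd0, rfl⟩ := hz
    refine ⟨a * d + c * b, A.add_mem (A.mul_mem ha hd) (A.mul_mem hc hb), b * d,
      A.mul_mem hb hd, mul_ne_zero hb0 hd0, ?_⟩
    field_simp
  | inv y _ hy =>
    obtain ⟨a, ha, b, hb, hb0, rfl⟩ := hy
    by_cases ha0 : a = 0
    · exact ⟨0, A.zero_mem, 1, A.one_mem, one_ne_zero, by rw [ha0]; simp⟩
    · exact ⟨b, hb, a, ha, ha0, by field_simp⟩
  | mul y z _ _ hy hz =>
    obtain ⟨a, ha, b, hb, hb0, rfl⟩ := hy
    obtain ⟨c, hc, d, hd, hd0, rfl⟩ := hz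
    refine ⟨a * c, A.mul_mem ha hc, b * d, A.mul_mem hb hd, mul_ne_zero hb0 hd0, ?_⟩
    field_simp

/-- **Stages of function fields of bounded degree with a valuation.** -/
theorem t_bd : Pool.Agent.N102.EC.S_BD.{u} := by
  classical
  intro E K _ _ _ _ N r δ x htop htr C0 hδ V hp R hfr hRV hR
  let g : Fin N → K := fun j => if x j ∈ V then x j else (x j)⁻¹
  set A : Subring K := Subring.closure ((R.map (algebraMap E K) : Set K) ∪ Set.range g) with hA
  have hRA : ∀ a ∈ R, algebraMap E K a ∈ A := fun a ha =>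
    Subring.subset_closure (Or.inl ⟨a, ha, rfl⟩)
  have hgA : ∀ j, g j ∈ A := fun j => Subring.subset_closure (Or.inr ⟨j, rfl⟩)
  have hgm : ∀ j, LProd (E := E) x (g j) := by
    intro j
    by_cases hj : x j ∈ V
    · have h1 : g j = x j ^ (1 : ℤ) := by rw [zpow_one]; exact if_pos hj
      rw [h1]
      exact lprod_zpow x j 1
    · have h1 : g j = x j ^ (-1 : ℤ) := by rw [zpow_neg_one]; exact if_neg hj
      rw [h1]
      exact lprod_zpow x j (-1)
  have hAV : A ≤ V.toSubring := by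
    rw [hA, Subring.closure_le]
    rintro z (⟨a, ha, rfl⟩ | ⟨j, rfl⟩)
    · exact hRV a ha
    · by_cases hj : x j ∈ V
      · have h1 : g j = x j := if_pos hj
        rw [h1]
        exact hj
      · have h1 : g j = (x j)⁻¹ := if_neg hj
        rw [h1]
        exact (V.mem_or_inv_mem (x j)).resolve_left hj
  have hden : ∀ j, ∃ b ∈ A, b ≠ 0 ∧ LProd (E := E) x b ∧ b * x j ∈ A := by
    intro j
    by_cases hj : x j ∈ V
    · have h1 : g j = x j := if_pos hj
      refine ⟨1, A.one_mem, one_ne_zero, ?_, ?_⟩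
      · exact ⟨0, Fin.elim0, Fin.elim0, Fin.elim0, by simp⟩
      · rw [one_mul, ← h1]
        exact hgA j
    · have h1 : g j = (x j)⁻¹ := if_neg hj
      have h0 : x j ≠ 0 := fun h => hj (by rw [h]; exact V.zero_mem)
      refine ⟨g j, hgA j, ?_, hgm j, ?_⟩
      · rw [h1]
        exact inv_ne_zero h0
      · rw [h1, inv_mul_cancel₀ h0]
        exact A.one_mem
  obtain ⟨T, n, X, hSt, -⟩ := Pool.Agent.N98.SS.exists_stage (E := E) x htop htr C0 hδ V hp R hfr hR
    (R.map (algebraMap E K)) (Set.range g) (Set.finite_range g)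
    (by rintro _ ⟨j, rfl⟩; exact hgm j) A hAV hA ∅ Set.finite_empty
    (by rw [Set.union_empty, Subring.closure_eq]) (by intro u hu; exact absurd hu (Set.notMem_empty u))
    hden ∅ Set.finite_empty (by intro u hu; exact absurd hu (Set.notMem_empty u))
  refine ⟨A, T, n, X, hSt, hRA, frac_all x htop A ?_ ?_⟩
  · intro w
    obtain ⟨a, ha, b, hb, hb0, rfl⟩ := hfr w
    refine ⟨algebraMap E K a, hRA a ha, algebraMap E K b, hRA b hb, ?_, by rw [map_mul, map_inv₀]⟩
    exact fun h => hb0 ((algebraMap E K).injective (by rw [h, map_zero]))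
  · intro j
    obtain ⟨b, hb, hb0, -, hbx⟩ := hden j
    refine ⟨b * x j, hbx, b, hb, hb0, ?_⟩
    field_simp

end Pool.Agent.N901.EC
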